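import Mathlib

namespace Pool.Agent.Results.MP_339db1_al.NotGenerated

/-- a d-CP structure on the monoid `M` -/
def IsCP {M : Type} [Monoid M] {d : ℕ} (Φ : (Fin d → M) → M) (τ : Fin d → M) : Prop :=
  Function.Bijective Φ ∧ ∀ m i, τ i * Φ m = m i

lemma mul_right {M : Type} [Monoid M] {d : ℕ} {Φ : (Fin d → M) → M} {τ : Fin d → M}
    (h : IsCP Φ τ) (m : Fin d → M) (x : M) : Φ m * x = Φ (fun i => m i * x) := by
  obtain ⟨v, hv⟩ := h.1.2 (Φ m * x)
  rw [← hv]
  congr 1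
  funext i
  rw [← h.2 v i, hv, ← mul_assoc, h.2]

lemma tau_inj {M : Type} [Monoid M] [Nontrivial M] {d : ℕ} {Φ : (Fin d → M) → M} {τ : Fin d → M}
    (h : IsCP Φ τ) : Function.Injective τ := by
  intro i j e
  by_contra hne
  obtain ⟨x, hx⟩ := exists_ne (1 : M)
  have h1 := h.2 (Function.update 1 i x) i
  rw [e, h.2] at h1
  simp [Function.update_of_ne (Ne.symm hne), hx.symm] at h1

lemma unit_of {M : Type} [Monoid M] [Nontrivial M] {d : ℕ} {Φ : (Fin d → M) → M} {τ : Fin d → M}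
    (h : IsCP Φ τ) (f : Fin d → Fin d) (x : M) (hx : Φ (τ ∘ f) * x = 1) :
    ∃ y, y * Φ (τ ∘ f) = 1 := by
  have h1 : Φ τ = 1 := by
    obtain ⟨v, hv⟩ := h.1.2 1
    rw [← hv]; congr 1; funext i; rw [← h.2 v i, hv, mul_one]
  rw [mul_right h, ← h1] at hx
  have hf : Function.Injective f := fun a b e => tau_inj h (by
    rw [← congrFun (h.1.1 hx) a, ← congrFun (h.1.1 hx) b]; simp [e])
  obtain ⟨g, hg⟩ := (Finite.injective_iff_surjective.mp hf).hasRightInverse
  refine ⟨Φ (τ ∘ g), ?_⟩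
  rw [mul_right h, ← h1]
  congr 1
  funext i
  simp [h.2, hg i]

theorem result (U : Type) [Monoid U] (S : (Fin 2 → U) → U) (π : Fin 2 → U) (hU : IsCP S π)
    (hinit : ∀ (N : Type) [Monoid N] (Φ : (Fin 2 → N) → N) (τ : Fin 2 → N), IsCP Φ τ →
      ∃ f : U →* N, (∀ i, f (π i) = τ i) ∧ ∀ m, f (S m) = Φ (f ∘ m)) :
    π 0 ∉ Submonoid.closure {x : U | ∃ (d : ℕ) (Φ : (Fin d → U) → U) (τ : Fin d → U)
      (f : Fin d → Fin d), 2 ≤ d ∧ IsCP Φ τ ∧ x = Φ (τ ∘ f)} := by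
  have : Nontrivial U := by
    obtain ⟨f, h1, -⟩ := hinit (Function.End ℕ) (fun m n => Nat.pair (m 0 n) (m 1 n))
      ![fun n => n.unpair.1, fun n => n.unpair.2] ⟨⟨fun m m' e => by
        funext i n
        have := Nat.pair_eq_pair.mp (congrFun e n)
        fin_cases i
        exacts [this.1, this.2], fun g => ⟨![fun n => (g n).unpair.1, fun n => (g n).unpair.2],
          funext fun n => Nat.pair_unpair _⟩⟩, fun m i => by
        funext n; fin_cases i <;> exact (by simp [Function.End.mul_def])⟩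
    refine ⟨π 0, π 1, fun e => ?_⟩
    have h2 := congrFun ((h1 0).symm.trans (e ▸ h1 1)) 1
    revert h2; decide
  intro h
  have key : ∀ x, (∃ y, π 0 * x * y = 1) → ∃ y, y * π 0 = 1 := by
    generalize π 0 = p at h
    induction h using Submonoid.closure_induction_left with
    | one => exact fun _ _ => ⟨1, mul_one 1⟩
    | mul_left a ha b _ ih =>
      rintro x ⟨y, hy⟩
      obtain ⟨d, Φ, τ, f, -, hc, rfl⟩ := ha
      have h1 : Φ (τ ∘ f) * (b * x * y) = 1 := by rw [← hy]; simp only [mul_assoc]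
      obtain ⟨z, hz⟩ := unit_of hc f _ h1
      have h2 : z = b * x * y := left_inv_eq_right_inv hz h1
      obtain ⟨w, hw⟩ := ih x ⟨y * Φ (τ ∘ f), by rw [← mul_assoc, ← h2, hz]⟩
      exact ⟨w * z, by rw [mul_assoc, ← mul_assoc z, hz, one_mul, hw]⟩
  obtain ⟨y, hy⟩ := key (S 1) ⟨1, by rw [mul_one, hU.2]; rfl⟩
  obtain ⟨x, hx⟩ := exists_ne (1 : U)
  have h3 : ∀ m, S m = y * m 0 := fun m => by rw [← hU.2 m 0, ← mul_assoc, hy, one_mul]
  exact hx (congrFun (hU.1.1 ((h3 ![1, x]).trans (h3 ![1, 1]).symm)) 1)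

end Pool.Agent.Results.MP_339db1_al.NotGenerated
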